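import Mathlib

set_option autoImplicit false
open Set Function Topology Filter

namespace Pool.Agent.H.MP_7f09f8
universe u v

lemma supp {E : Type u} {X : Type v} [AddCommGroup E] [Module ℝ E] (j : E →ₗ[ℝ] X → ℝ)
    (Λ : E →ₗ[ℝ] ℝ) (h : @Continuous _ _ (.induced j Pi.topologicalSpace) _ Λ) :
    ∃ F : Set X, F.Finite ∧ ∀ f : E, (∀ x ∈ F, j f x = 0) → Λ f = 0 := by
  let : TopologicalSpace E := .induced j Pi.topologicalSpace
  obtain ⟨s, hs, hs'⟩ := (mem_nhds_induced _ _ _).1 (h.continuousAt.preimage_mem_nhds (x := 0)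
    (Metric.ball_mem_nhds _ one_pos))
  rw [nhds_pi, Filter.mem_pi] at hs
  obtain ⟨F, h1, t, h2, h3⟩ := hs
  refine ⟨F, h1, fun f hf => ?_⟩
  by_contra hn
  have := hs' (h3 (a := j ((Λ f)⁻¹ • f)) fun x hx => by
    simpa [hf x hx] using mem_of_mem_nhds (h2 x))
  simp [hn] at this

lemma repr {E : Type u} {X : Type v} [AddCommGroup E] [Module ℝ E] (j : E →ₗ[ℝ] X → ℝ)
    (Λ : E →ₗ[ℝ] ℝ) (h : @Continuous _ _ (.induced j Pi.topologicalSpace) _ Λ) :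
    ∃ (n : ℕ) (x : Fin n → X) (c : Fin n → ℝ), ∀ f, Λ f = ∑ i, c i * j f (x i) := by
  obtain ⟨F, h1, h2⟩ := supp j Λ h
  obtain ⟨n, x, -, rfl⟩ := h1.fin_param
  obtain ⟨c, hc⟩ := (Submodule.mem_span_range_iff_exists_fun ℝ).1 (mem_span_of_iInf_ker_le_ker
    (L := fun i => LinearMap.proj (x i) ∘ₗ j) (K := Λ) fun f hf => h2 f (by
      rintro _ ⟨i, rfl⟩
      exact (Submodule.mem_iInf _).1 hf i))
  exact ⟨n, x, c, fun f => by simp [← hc]⟩

end Pool.Agent.H.MP_7f09f8
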